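import Mathlib

/-!
# Kneser's addition theorem for abelian groups

`kneser`: for nonempty finite subsets `A`, `B` of an abelian group,
`#(A + S) + #(B + S) ≤ #(A + B) + #S`, where `S = stab (A + B)` is the stabilizer of `A + B`
(as a finset; `mem_stab`, `zero_mem_stab`, `add_mem_stab`, `neg_mem_stab` say that it is the
subgroup of all `g` with `g + x ∈ A + B` for all `x ∈ A + B`).
-/

open scoped Pointwise

namespace Pool.Agent.Helper82.Kneser

variable {G : Type*} [AddCommGroup G] [DecidableEq G]

/-- The stabilizer of a nonempty finite set, as a finset. -/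
def stab (C : Finset G) : Finset G := (C - C).filter (fun g => ∀ x ∈ C, g + x ∈ C)

lemma mem_stab {C : Finset G} (hC : C.Nonempty) {g : G} :
    g ∈ stab C ↔ ∀ x ∈ C, g + x ∈ C := by
  unfold stab
  rw [Finset.mem_filter]
  constructor
  · exact fun h => h.2
  · intro h
    obtain ⟨x, hx⟩ := hC
    exact ⟨Finset.mem_sub.2 ⟨g + x, h x hx, x, hx, by abel⟩, h⟩

lemma add_mem_of_mem_stab {C : Finset G} {g x : G} (hg : g ∈ stab C) (hx : x ∈ C) :
    g + x ∈ C := (Finset.mem_filter.1 hg).2 x hx

lemma zero_mem_stab {C : Finset G} (hC : C.Nonempty) : (0 : G) ∈ stab C := by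
  rw [mem_stab hC]
  intro x hx
  simpa using hx

lemma add_mem_stab {C : Finset G} {g h : G} (hg : g ∈ stab C)
    (hh : h ∈ stab C) : g + h ∈ stab C := by
  have hC : C.Nonempty := by
    by_contra hne
    rw [Finset.not_nonempty_iff_eq_empty] at hne
    subst hne
    simp [stab] at hg
  rw [mem_stab hC]
  intro x hx
  rw [add_assoc]
  exact add_mem_of_mem_stab hg (add_mem_of_mem_stab hh hx)

lemma neg_mem_stab {C : Finset G} {g : G} (hg : g ∈ stab C) :
    -g ∈ stab C := by
  have hC : C.Nonempty := by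
    by_contra hne
    rw [Finset.not_nonempty_iff_eq_empty] at hne
    subst hne
    simp [stab] at hg
  rw [mem_stab hC]
  intro x hx
  -- the map `x ↦ g + x` is a bijection of `C`
  have himg : C.image (fun y => g + y) = C := by
    apply Finset.eq_of_subset_of_card_le
    · intro y hy
      obtain ⟨z, hz, rfl⟩ := Finset.mem_image.1 hy
      exact add_mem_of_mem_stab hg hz
    · rw [Finset.card_image_of_injective _ (add_right_injective g)]
  rw [← himg] at hx
  obtain ⟨z, hz, rfl⟩ := Finset.mem_image.1 hx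
  simpa using hz

lemma card_mul_le (X Y D : Finset G)
    (h : ∀ x ∈ X, ∀ x' ∈ X, ∀ y ∈ Y, ∀ y' ∈ Y, x + y = x' + y' → x' - x ∈ D) :
    X.card * Y.card ≤ D.card * (X + Y).card := by
  classical
  have key := Finset.card_le_mul_card_image (f := fun p : G × G => p.1 + p.2) (X ×ˢ Y) D.card ?_
  · rw [Finset.card_product] at key
    exact key
  · intro a ha
    obtain ⟨⟨x₀, y₀⟩, h₀, rfl⟩ := Finset.mem_image.1 ha
    rw [Finset.mem_product] at h₀
    refine Finset.card_le_card_of_injOn (fun p => p.1 - x₀) ?_ ?_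
    · intro p hp
      rw [Finset.mem_coe, Finset.mem_filter, Finset.mem_product] at hp
      exact h x₀ h₀.1 p.1 hp.1.1 y₀ h₀.2 p.2 hp.1.2 hp.2.symm
    · intro p hp q hq hpq
      rw [Finset.mem_coe, Finset.mem_filter, Finset.mem_product] at hp hq
      have h1 : p.1 = q.1 := by simpa using hpq
      have h2 : p.1 + p.2 = q.1 + q.2 := hp.2.trans hq.2.symm
      have h3 : p.2 = q.2 := by
        rw [h1] at h2
        exact add_left_cancel h2
      exact Prod.ext h1 h3

/-- A finite subgroup, as a finset. -/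
structure IsSub (H : Finset G) : Prop where
  zero : (0 : G) ∈ H
  add : ∀ {g h : G}, g ∈ H → h ∈ H → g + h ∈ H
  neg : ∀ {g : G}, g ∈ H → -g ∈ H

lemma isSub_stab {C : Finset G} (hC : C.Nonempty) : IsSub (stab C) :=
  ⟨zero_mem_stab hC, add_mem_stab, neg_mem_stab⟩

omit [DecidableEq G] in
lemma IsSub.sub {H : Finset G} (hH : IsSub H) {g h : G} (hg : g ∈ H) (hh : h ∈ H) :
    g - h ∈ H := by
  rw [sub_eq_add_neg]
  exact hH.add hg (hH.neg hh)

lemma IsSub.inter {H K : Finset G} (hH : IsSub H) (hK : IsSub K) : IsSub (H ∩ K) :=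
  ⟨Finset.mem_inter.2 ⟨hH.zero, hK.zero⟩,
    fun hg hh => by
      rw [Finset.mem_inter] at hg hh ⊢
      exact ⟨hH.add hg.1 hh.1, hK.add hg.2 hh.2⟩,
    fun hg => by
      rw [Finset.mem_inter] at hg ⊢
      exact ⟨hH.neg hg.1, hK.neg hg.2⟩⟩

omit [DecidableEq G] in
/-- If `H` stabilizes `C` and `x ∈ C`, then `#H ≤ #C`. -/
lemma card_le_of_periodic {H C : Finset G} (hp : ∀ h ∈ H, ∀ x ∈ C, h + x ∈ C)
    (hC : C.Nonempty) : H.card ≤ C.card := by
  obtain ⟨x, hx⟩ := hC
  refine Finset.card_le_card_of_injOn (fun h => h + x) (fun h hh => hp h hh x hx) ?_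
  intro a _ b _ hab
  exact add_right_cancel hab

/-- One-coset count. -/
lemma coset_count {H₁ H₂ C₁ C₂ : Finset G} (hH₁ : IsSub H₁) (hH₂ : IsSub H₂)
    (hp₁ : ∀ h ∈ H₁, ∀ x ∈ C₁, h + x ∈ C₁) (hp₂ : ∀ h ∈ H₂, ∀ x ∈ C₂, h + x ∈ C₂)
    (hne : (C₂ \ C₁).Nonempty) :
    H₁.card ≤ (C₂ \ C₁).card + (H₁ ∩ H₂).card ∨ H₂.card ≤ (C₁ \ C₂).card + (H₁ ∩ H₂).card ∨
      H₂.card ≤ (C₂ \ C₁).card := by
  classical
  obtain ⟨c, hc⟩ := hne
  rw [Finset.mem_sdiff] at hc
  obtain ⟨hc2, hc1⟩ := hc
  set D := H₁ ∩ H₂ with hD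
  have hDsub : IsSub D := hH₁.inter hH₂
  set U := H₂.filter (fun h => c + h ∉ C₁) with hU
  set W := H₂.filter (fun h => ¬ (c + h ∉ C₁)) with hW
  set V := H₁.filter (fun h => c + h ∉ C₂) with hV
  set X := H₁.filter (fun h => ¬ (c + h ∉ C₂)) with hX
  have hcardUW : U.card + W.card = H₂.card := Finset.card_filter_add_card_filter_not _
  have hcardVX : V.card + X.card = H₁.card := Finset.card_filter_add_card_filter_not _
  -- `c + X + U ⊆ C₂ \ C₁`
  have hXU : (X + U).card ≤ (C₂ \ C₁).card := by
    refine Finset.card_le_card_of_injOn (fun g => c + g) ?_ ?_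
    · intro g hg
      rw [Finset.mem_coe, Finset.mem_add] at hg
      obtain ⟨x, hx, u, hu, rfl⟩ := hg
      rw [hX, Finset.mem_filter, not_not] at hx
      rw [hU, Finset.mem_filter] at hu
      rw [Finset.mem_coe, Finset.mem_sdiff]
      constructor
      · have := hp₂ u hu.1 _ hx.2
        have e : u + (c + x) = c + (x + u) := by abel
        rwa [e] at this
      · intro hmem
        have := hp₁ (-x) (hH₁.neg hx.1) _ hmem
        have e : -x + (c + (x + u)) = c + u := by abel
        rw [e] at this
        exact hu.2 this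
    · intro a _ b _ hab
      exact add_left_cancel hab
  have hVW : (V + W).card ≤ (C₁ \ C₂).card := by
    refine Finset.card_le_card_of_injOn (fun g => c + g) ?_ ?_
    · intro g hg
      rw [Finset.mem_coe, Finset.mem_add] at hg
      obtain ⟨x, hx, u, hu, rfl⟩ := hg
      rw [hV, Finset.mem_filter] at hx
      rw [hW, Finset.mem_filter, not_not] at hu
      rw [Finset.mem_coe, Finset.mem_sdiff]
      constructor
      · have := hp₁ x hx.1 _ hu.2
        have e : x + (c + u) = c + (x + u) := by abel
        rwa [e] at this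
      · intro hmem
        have := hp₂ (-u) (hH₂.neg hu.1) _ hmem
        have e : -u + (c + (x + u)) = c + x := by abel
        rw [e] at this
        exact hx.2 this
    · intro a _ b _ hab
      exact add_left_cancel hab
  have hcount1 : X.card * U.card ≤ D.card * (X + U).card := by
    apply card_mul_le
    intro x hx x' hx' y hy y' hy' hxy
    rw [hX, Finset.mem_filter] at hx hx'
    rw [hU, Finset.mem_filter] at hy hy'
    rw [hD, Finset.mem_inter]
    refine ⟨hH₁.sub hx'.1 hx.1, ?_⟩
    have e : x' - x = y - y' := by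
      rw [sub_eq_sub_iff_add_eq_add, ← hxy, add_comm]
    rw [e]
    exact hH₂.sub hy.1 hy'.1
  have hcount2 : V.card * W.card ≤ D.card * (V + W).card := by
    apply card_mul_le
    intro x hx x' hx' y hy y' hy' hxy
    rw [hV, Finset.mem_filter] at hx hx'
    rw [hW, Finset.mem_filter] at hy hy'
    rw [hD, Finset.mem_inter]
    refine ⟨hH₁.sub hx'.1 hx.1, ?_⟩
    have e : x' - x = y - y' := by
      rw [sub_eq_sub_iff_add_eq_add, ← hxy, add_comm]
    rw [e]
    exact hH₂.sub hy.1 hy'.1
  have hDpos : 0 < D.card := Finset.card_pos.2 ⟨0, hDsub.zero⟩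
  -- lower bounds for the sizes
  have hUge : D.card ≤ U.card := by
    apply card_le_of_periodic (H := D)
    · intro d hd u hu
      rw [hU, Finset.mem_filter] at hu ⊢
      rw [hD, Finset.mem_inter] at hd
      refine ⟨hH₂.add hd.2 hu.1, fun hmem => hu.2 ?_⟩
      have := hp₁ (-d) (hH₁.neg hd.1) _ hmem
      have e : -d + (c + (d + u)) = c + u := by abel
      rwa [e] at this
    · exact ⟨0, by rw [hU, Finset.mem_filter]; exact ⟨hH₂.zero, by simpa using hc1⟩⟩
  have hXge : D.card ≤ X.card := by
    apply card_le_of_periodic (H := D)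
    · intro d hd u hu
      rw [hX, Finset.mem_filter, not_not] at hu ⊢
      rw [hD, Finset.mem_inter] at hd
      refine ⟨hH₁.add hd.1 hu.1, ?_⟩
      have := hp₂ d hd.2 _ hu.2
      have e : d + (c + u) = c + (d + u) := by abel
      rwa [e] at this
    · exact ⟨0, by rw [hX, Finset.mem_filter, not_not]; exact ⟨hH₁.zero, by simpa using hc2⟩⟩
  have hVge : V.Nonempty → D.card ≤ V.card := by
    intro hVne
    apply card_le_of_periodic (H := D) _ hVne
    intro d hd u hu
    rw [hV, Finset.mem_filter] at hu ⊢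
    rw [hD, Finset.mem_inter] at hd
    refine ⟨hH₁.add hd.1 hu.1, fun hmem => hu.2 ?_⟩
    have := hp₂ (-d) (hH₂.neg hd.2) _ hmem
    have e : -d + (c + (d + u)) = c + u := by abel
    rwa [e] at this
  have hWge : W.Nonempty → D.card ≤ W.card := by
    intro hWne
    apply card_le_of_periodic (H := D) _ hWne
    intro d hd u hu
    rw [hW, Finset.mem_filter, not_not] at hu ⊢
    rw [hD, Finset.mem_inter] at hd
    refine ⟨hH₂.add hd.2 hu.1, ?_⟩
    have := hp₁ d hd.1 _ hu.2
    have e : d + (c + u) = c + (d + u) := by abel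
    rwa [e] at this
  set P := (C₂ \ C₁).card
  set Q := (C₁ \ C₂).card
  set a := X.card
  set u := U.card
  set v := V.card
  set w := W.card
  set δ := D.card
  have h1 : a * u ≤ δ * P := hcount1.trans (Nat.mul_le_mul_left _ hXU)
  have h2 : v * w ≤ δ * Q := hcount2.trans (Nat.mul_le_mul_left _ hVW)
  rcases V.eq_empty_or_nonempty with hVe | hVne
  · -- `v = 0`
    left
    have hv : v = 0 := by simp [v, hVe]
    have : a = H₁.card := by omega
    have h3 : a * δ ≤ δ * P := (Nat.mul_le_mul_left _ hUge).trans h1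
    rw [mul_comm] at h3
    have := Nat.le_of_mul_le_mul_left h3 hDpos
    omega
  · rcases W.eq_empty_or_nonempty with hWe | hWne
    · right; right
      have hw : w = 0 := by simp [w, hWe]
      have : u = H₂.card := by omega
      have h3 : δ * u ≤ δ * P := (Nat.mul_le_mul_right _ hXge).trans h1
      have := Nat.le_of_mul_le_mul_left h3 hDpos
      omega
    · have hv := hVge hVne
      have hw := hWge hWne
      by_contra hcon
      push Not at hcon
      obtain ⟨hc1', hc2', -⟩ := hcon
      -- `a u + v w ≥ δ (m₁ + m₂ - 2 δ)`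
      have hsum : P + Q + 2 * δ < a + v + (u + w) := by omega
      have e1 : δ * (a + u) ≤ a * u + δ * δ := by
        obtain ⟨a', ha'⟩ := Nat.exists_eq_add_of_le hXge
        obtain ⟨u', hu'⟩ := Nat.exists_eq_add_of_le hUge
        rw [ha', hu']
        nlinarith
      have e2 : δ * (v + w) ≤ v * w + δ * δ := by
        obtain ⟨a', ha'⟩ := Nat.exists_eq_add_of_le hv
        obtain ⟨u', hu'⟩ := Nat.exists_eq_add_of_le hw
        rw [ha', hu']
        nlinarith
      have e3 : δ * (a + v + (u + w)) ≤ δ * (P + Q + 2 * δ) := by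
        nlinarith
      have := Nat.le_of_mul_le_mul_left e3 hDpos
      omega

/-- Kemperman's lemma on unions of periodic sets, core case. -/
lemma union_core {H₁ H₂ C₁ C₂ : Finset G} (hH₁ : IsSub H₁) (hH₂ : IsSub H₂)
    (hp₁ : ∀ h ∈ H₁, ∀ x ∈ C₁, h + x ∈ C₁) (hp₂ : ∀ h ∈ H₂, ∀ x ∈ C₂, h + x ∈ C₂)
    (hne₁ : (C₂ \ C₁).Nonempty) (hne₂ : (C₁ \ C₂).Nonempty) :
    H₁.card ≤ (C₂ \ C₁).card + (H₁ ∩ H₂).card ∨
      H₂.card ≤ (C₁ \ C₂).card + (H₁ ∩ H₂).card := by
  have h1 := coset_count hH₁ hH₂ hp₁ hp₂ hne₁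
  have h2 := coset_count hH₂ hH₁ hp₂ hp₁ hne₂
  rw [Finset.inter_comm H₂ H₁] at h2
  omega

/-- Kemperman's lemma on unions of periodic sets. -/
lemma union_bound {C₁ C₂ : Finset G} (h₁ : C₁.Nonempty) (h₂ : C₂.Nonempty) {t : ℕ}
    (ht₁ : t ≤ C₁.card + (stab C₁).card) (ht₂ : t ≤ C₂.card + (stab C₂).card) :
    t ≤ (C₁ ∪ C₂).card + (stab (C₁ ∪ C₂)).card := by
  classical
  rcases (C₂ \ C₁).eq_empty_or_nonempty with he | hne₁
  · have : C₁ ∪ C₂ = C₁ := Finset.union_eq_left.2 (Finset.sdiff_eq_empty_iff_subset.1 he)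
    rwa [this]
  rcases (C₁ \ C₂).eq_empty_or_nonempty with he | hne₂
  · have : C₁ ∪ C₂ = C₂ := Finset.union_eq_right.2 (Finset.sdiff_eq_empty_iff_subset.1 he)
    rwa [this]
  have hcore := union_core (isSub_stab h₁) (isSub_stab h₂)
    (fun h hh x hx => add_mem_of_mem_stab hh hx) (fun h hh x hx => add_mem_of_mem_stab hh hx)
    hne₁ hne₂
  have hsub : stab C₁ ∩ stab C₂ ⊆ stab (C₁ ∪ C₂) := by
    intro g hg
    rw [Finset.mem_inter] at hg
    rw [mem_stab (h₁.mono Finset.subset_union_left)]
    intro x hx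
    rw [Finset.mem_union] at hx ⊢
    rcases hx with hx | hx
    · exact Or.inl (add_mem_of_mem_stab hg.1 hx)
    · exact Or.inr (add_mem_of_mem_stab hg.2 hx)
  have hcard := Finset.card_le_card hsub
  have e1 : (C₁ ∪ C₂).card = C₁.card + (C₂ \ C₁).card := by
    rw [← Finset.card_union_of_disjoint Finset.disjoint_sdiff, Finset.union_sdiff_self_eq_union]
  have e2 : (C₁ ∪ C₂).card = C₂.card + (C₁ \ C₂).card := by
    rw [← Finset.card_union_of_disjoint Finset.disjoint_sdiff, Finset.union_sdiff_self_eq_union,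
      Finset.union_comm]
  omega

/-- The Dyson transform step. -/
lemma exists_piece (n : ℕ) : ∀ (A B : Finset G), B.card = n → ∀ a ∈ A, ∀ b ∈ B,
    ∃ C : Finset G, C ⊆ A + B ∧ a + b ∈ C ∧ A.card + B.card ≤ C.card + (stab C).card := by
  classical
  induction n using Nat.strong_induction_on with
  | _ n ih =>
    intro A B hn a ha b hb
    by_cases hex : ∃ e ∈ A, (Finset.addDysonETransform (e - b) (A, B)).2.card < B.card
    · obtain ⟨e, he, hlt⟩ := hex
      set T := Finset.addDysonETransform (e - b) (A, B) with hT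
      have hTsub : T.1 + T.2 ⊆ A + B := Finset.addDysonETransform.subset (e - b) (A, B)
      have hTcard : T.1.card + T.2.card = A.card + B.card :=
        Finset.addDysonETransform.card (e - b) (A, B)
      have haT : a ∈ T.1 := by
        rw [hT]
        simp only [Finset.addDysonETransform_fst, Finset.mem_union]
        exact Or.inl ha
      have hbT : b ∈ T.2 := by
        rw [hT]
        simp only [Finset.addDysonETransform_snd, Finset.mem_inter]
        refine ⟨hb, ?_⟩
        rw [Finset.mem_vadd_finset]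
        exact ⟨e, he, by simp⟩
      obtain ⟨C, hC1, hC2, hC3⟩ := ih T.2.card (by omega) T.1 T.2 rfl a haT b hbT
      exact ⟨C, hC1.trans hTsub, hC2, by omega⟩
    · push Not at hex
      -- `(B - b) + A ⊆ A`
      have hstab : ∀ y ∈ B, ∀ e ∈ A, (y - b) + e ∈ A := by
        intro y hy e he
        have h1 := hex e he
        have h2 : (Finset.addDysonETransform (e - b) (A, B)).2 ⊆ B := by
          simp only [Finset.addDysonETransform_snd]
          exact Finset.inter_subset_left
        have h3 := Finset.eq_of_subset_of_card_le h2 h1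
        have h4 : y ∈ (Finset.addDysonETransform (e - b) (A, B)).2 := by
          rw [h3]; exact hy
        simp only [Finset.addDysonETransform_snd, Finset.mem_inter] at h4
        obtain ⟨-, h5⟩ := h4
        rw [Finset.mem_vadd_finset] at h5
        obtain ⟨z, hz, hzy⟩ := h5
        have e' : (y - b) + e = z := by
          rw [← hzy, vadd_eq_add]
          abel
        rw [e']
        exact hz
      refine ⟨A.image (fun x => x + b), ?_, ?_, ?_⟩
      · intro x hx
        obtain ⟨y, hy, rfl⟩ := Finset.mem_image.1 hx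
        exact Finset.add_mem_add hy hb
      · exact Finset.mem_image_of_mem _ ha
      · have hne : (A.image (fun x => x + b)).Nonempty := ⟨a + b, Finset.mem_image_of_mem _ ha⟩
        have hle : B.card ≤ (stab (A.image (fun x => x + b))).card := by
          refine Finset.card_le_card_of_injOn (fun y => y - b) ?_ ?_
          · intro y hy
            rw [Finset.mem_coe, mem_stab hne]
            intro x hx
            obtain ⟨z, hz, rfl⟩ := Finset.mem_image.1 hx
            rw [Finset.mem_image]
            refine ⟨(y - b) + z, hstab y hy z hz, ?_⟩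
            show (y - b) + z + b = (y - b) + (z + b)
            abel
          · intro x _ y _ hxy
            simpa using hxy
        rw [Finset.card_image_of_injective _ (add_left_injective b)]
        omega

/-- Kneser's theorem, weak form. -/
theorem kneser_weak {A B : Finset G} (hA : A.Nonempty) (hB : B.Nonempty) :
    A.card + B.card ≤ (A + B).card + (stab (A + B)).card := by
  classical
  have hpiece : ∀ c ∈ A + B, ∃ C : Finset G, C ⊆ A + B ∧ c ∈ C ∧
      A.card + B.card ≤ C.card + (stab C).card := by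
    intro c hc
    obtain ⟨a, ha, b, hb, rfl⟩ := Finset.mem_add.1 hc
    exact exists_piece B.card A B rfl a ha b hb
  -- a maximal good subset of `A + B`
  set good := (A + B).powerset.filter
    (fun C => C.Nonempty ∧ A.card + B.card ≤ C.card + (stab C).card) with hgood
  have hgne : good.Nonempty := by
    obtain ⟨c, hc⟩ := hA.add hB
    obtain ⟨C, hC1, hC2, hC3⟩ := hpiece c hc
    exact ⟨C, by rw [hgood, Finset.mem_filter, Finset.mem_powerset]; exact ⟨hC1, ⟨c, hC2⟩, hC3⟩⟩
  obtain ⟨M, hM, hmax⟩ := Finset.exists_max_image good Finset.card hgne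
  rw [hgood, Finset.mem_filter, Finset.mem_powerset] at hM
  obtain ⟨hM1, hM2, hM3⟩ := hM
  have hMeq : M = A + B := by
    apply Finset.Subset.antisymm hM1
    intro c hc
    by_contra hcM
    obtain ⟨C, hC1, hC2, hC3⟩ := hpiece c hc
    have hU : M ∪ C ∈ good := by
      rw [hgood, Finset.mem_filter, Finset.mem_powerset]
      exact ⟨Finset.union_subset hM1 hC1, hM2.mono Finset.subset_union_left,
        union_bound hM2 ⟨c, hC2⟩ hM3 hC3⟩
    have hle := hmax _ hU
    have hlt : M.card < (M ∪ C).card := by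
      apply Finset.card_lt_card
      refine ⟨Finset.subset_union_left, fun hsub => hcM (hsub (Finset.mem_union_right _ hC2))⟩
    omega
  rw [← hMeq]
  exact hM3

/-- **Kneser's addition theorem**: for nonempty finite subsets `A`, `B` of an abelian group with
`S = stab (A + B)`, `#(A + S) + #(B + S) ≤ #(A + B) + #S`. -/
theorem kneser {A B : Finset G} (hA : A.Nonempty) (hB : B.Nonempty) :
    (A + stab (A + B)).card + (B + stab (A + B)).card ≤ (A + B).card + (stab (A + B)).card := by
  classical
  set S := stab (A + B) with hS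
  have hSs : IsSub S := isSub_stab (hA.add hB)
  have hSne : S.Nonempty := ⟨0, hSs.zero⟩
  have hSS : S + S = S := by
    apply Finset.Subset.antisymm
    · intro x hx
      obtain ⟨a, ha, b, hb, rfl⟩ := Finset.mem_add.1 hx
      exact hSs.add ha hb
    · intro x hx
      exact Finset.mem_add.2 ⟨x, hx, 0, hSs.zero, by simp⟩
  have hABS : (A + B) + S = A + B := by
    apply Finset.Subset.antisymm
    · intro x hx
      obtain ⟨a, ha, b, hb, rfl⟩ := Finset.mem_add.1 hx
      have h := add_mem_of_mem_stab hb ha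
      rw [add_comm b a] at h
      exact h
    · intro x hx
      exact Finset.mem_add.2 ⟨x, hx, 0, hSs.zero, by simp⟩
  have hsum : (A + S) + (B + S) = A + B := by
    rw [add_add_add_comm, hSS, hABS]
  have := kneser_weak (hA.add hSne) (hB.add hSne)
  rw [hsum] at this
  exact this

end Pool.Agent.Helper82.Kneser
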