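import Pool.Agent.Helper82.Nest.Clt2

/-!
Critical bond percolation on the square lattice: central limit theorem for the number of nested
interface loops.

Points are the vertices `(z, false)` and the faces `(z, true)` of the square lattice.  A path moves
freely along open edges (vertex to vertex) and across closed edges (face to face); a colour change is
a step between a face and one of its four corners.  `cc 0 n ω` is the least number of colour changes
of a path in the box `|z|_∞ ≤ n` from the origin to a vertex with `|z|_∞ = n`.  `ex 0 n f` is the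
expectation of `f ω`, where `ω` is a uniformly random set of edges of the box.
-/

set_option autoImplicit false

open H47Perc Filter Topology

namespace Pool.Agent.Helper82.LoopCLT

/-- the scaled probability -/
lemma ex_ind {n : ℕ} (A : Finset (Sym2 (ℤ × ℤ)) → Prop) [DecidablePred A] :
    H82Nest.ex 0 n (fun ω => if A ω then 1 else 0) =
      Pool.Agent.Helper69.RSW.P (edgesIn (fullAnn ((0:ℕ):ℤ) n)) A := by
  rw [H82Nest.ex_eq, H82Nest.Ex_ind]

open Classical in
/-- The least number `D` of colour changes from the origin to distance `n` has mean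
`log n / (2 √3 π) + O(1)` and is asymptotically normal with this mean and with variance
`(2/(3 √3 π) - 1/(2 π^2)) log n`. -/
theorem result :
    (∃ C : ℝ, ∀ n : ℕ, 1 ≤ n →
      |H82Nest.ex 0 n (fun ω => (H82Nest.cc 0 n ω : ℝ)) - Real.log n / (2 * √3 * Real.pi)| ≤ C) ∧
    ∀ x : ℝ, Tendsto (fun n : ℕ => H82Nest.ex 0 n (fun ω =>
        if (H82Nest.cc 0 n ω : ℝ) ≤ Real.log n / (2 * √3 * Real.pi) +
          x * √((2 / (3 * √3 * Real.pi) - 1 / (2 * Real.pi ^ 2)) * Real.log n) then 1 else 0)) atTop
      (𝓝 ((ProbabilityTheory.gaussianReal 0 1).real (Set.Iic x))) := by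
  have e : ∀ n : ℕ, OneArmW.nuM * Real.log n = Real.log n / (2 * √3 * Real.pi) := by
    intro n
    unfold OneArmW.nuM
    ring
  constructor
  · obtain ⟨C, h⟩ := H82Nest.nest_mean
    refine ⟨C, fun n hn => ?_⟩
    rw [← e]
    exact h n hn
  · intro x
    refine (H82Nest.nest_cdf x).congr fun n => ?_
    rw [ex_ind]
    congr 1
    funext ω
    rw [e]
    rfl

end Pool.Agent.Helper82.LoopCLT
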